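import Pool.Agent.H1.Hess.Main

/-! # Generic injectivity descends from an extension field -/

set_option autoImplicit false

open MvPolynomial

namespace Pool.Agent.H1.HW

open Pool.Agent.H4.Ternary Pool.Agent.H11.GL Pool.Agent.H11.GK Pool.Agent.H4.Apolar Pool.Agent.H1.Hess
open Pool.Agent.H11.GL.DualAux

namespace BaseAux

variable {K L : Type*} [Field K] [Field L] [Algebra K L] {n : ℕ}

/-- extension of scalars on `Ry` -/
noncomputable def rmap (K L : Type*) [Field K] [Field L] [Algebra K L] (n : ℕ) :
    Ry n K →+* Ry n L :=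
  MvPolynomial.map (MvPolynomial.map (algebraMap K L))

lemma coeff_rmap (u : Ry n K) (α : Fin n →₀ ℕ) :
    coeff α (rmap K L n u) = MvPolynomial.map (algebraMap K L) (coeff α u) :=
  MvPolynomial.coeff_map _ _ _

lemma rmap_gl : rmap K L n (gl n K) = gl n L := by
  unfold rmap gl
  rw [map_sum]
  refine Finset.sum_congr rfl fun i _ => ?_
  rw [map_mul, MvPolynomial.map_C, MvPolynomial.map_X, MvPolynomial.map_X]

lemma span_map (f : Fin n → Rx n K) :
    (Ideal.span (Set.range f)).map (MvPolynomial.map (algebraMap K L)) =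
      Ideal.span (Set.range fun i => MvPolynomial.map (algebraMap K L) (f i)) := by
  rw [Ideal.map_span]
  congr 1
  rw [← Set.range_comp]
  rfl

lemma mem_ey_rmap (f : Fin n → Rx n K) (p : Ry n K) :
    rmap K L n p ∈ ey (Ideal.span (Set.range fun i => MvPolynomial.map (algebraMap K L) (f i))) ↔
      p ∈ ey (Ideal.span (Set.range f)) := by
  rw [mem_ey, mem_ey, ← span_map]
  constructor
  · intro h α
    have h1 := h α
    rw [coeff_rmap] at h1
    exact map_mem_iff.1 h1
  · intro h α
    rw [coeff_rmap]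
    exact map_mem_iff.2 (h α)

lemma XD_rmap {m : ℕ} {u : Ry n K} (hu : XD m u) : XD m (rmap K L n u) := by
  intro α
  rw [coeff_rmap]
  have h := hu α
  cases m with
  | zero =>
    rw [mem_RT_zero] at h ⊢
    rw [h, map_zero]
  | succ m =>
    rw [mem_RT_succ] at h ⊢
    exact h.map _

end BaseAux

open BaseAux

theorem gen_descent {K L : Type*} [Field K] [Field L] [Algebra K L] {n : ℕ}
    {f : Fin n → Rx n K} {m k : ℕ}
    (h : ∀ u : Ry n L, XD m u →
      gl n L ^ k * u ∈ ey (Ideal.span (Set.range fun i => MvPolynomial.map (algebraMap K L) (f i))) →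
      u ∈ ey (Ideal.span (Set.range fun i => MvPolynomial.map (algebraMap K L) (f i))))
    {u : Ry n K} (hu : XD m u) (hk : gl n K ^ k * u ∈ ey (Ideal.span (Set.range f))) :
    u ∈ ey (Ideal.span (Set.range f)) := by
  rw [← mem_ey_rmap (L := L)] at hk ⊢
  apply h _ (XD_rmap hu)
  rwa [map_mul, map_pow, rmap_gl] at hk

end Pool.Agent.H1.HW
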