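import Mathlib

/-! LinAlg.lean (W2): the linear algebra lemma `lin_contra` -/

namespace Pool.Agent.H1.HW

/-- finrank of the preimage of a subspace of a quotient -/
theorem LinAlg.finrank_comap_mkQ {K V : Type*} [Field K] [AddCommGroup V] [Module K V]
    [FiniteDimensional K V] (G : Submodule K V) (W : Submodule K (V ⧸ G)) :
    Module.finrank K (W.comap G.mkQ) = Module.finrank K G + Module.finrank K W := by
  set P : Submodule K V := W.comap G.mkQ with hP
  have hGP : G ≤ P := by
    intro v hv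
    simp only [hP, Submodule.mem_comap, Submodule.mkQ_apply]
    rw [(Submodule.Quotient.mk_eq_zero G).mpr hv]
    exact W.zero_mem
  let f : P →ₗ[K] (V ⧸ G) := G.mkQ.domRestrict P
  have h1 := LinearMap.finrank_range_add_finrank_ker f
  have hr : LinearMap.range f = W := by
    rw [LinearMap.range_domRestrict, hP,
      Submodule.map_comap_eq_of_surjective (Submodule.mkQ_surjective G)]
  have hk : LinearMap.ker f = G.comap P.subtype := by
    ext v
    simp [f, Submodule.Quotient.mk_eq_zero]
  have hk2 : Module.finrank K (G.comap P.subtype) = Module.finrank K G :=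
    LinearEquiv.finrank_eq (Submodule.comapSubtypeEquivOfLe hGP)
  rw [hr, hk, hk2] at h1
  omega

theorem lin_contra {K V : Type*} [Field K] [IsAlgClosed K] [AddCommGroup V] [Module K V]
    [FiniteDimensional K V] (G : Submodule K V) (M : V →ₗ[K] V) (g : ℕ)
    (hg : g ≤ Module.finrank K G) (hn : g + 3 ≤ Module.finrank K V)
    (hG : ∀ v ∈ G, M v ∈ G)
    (h1 : ∀ (μ : K) (L : Submodule K V), (∀ v ∈ L, M v - μ • v ∈ G) →
      Module.finrank K L ≤ g + 1)
    (h2 : ∀ (μ μ' : K) (L : Submodule K V),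
      (∀ v ∈ L, M (M v) - (μ + μ') • M v + (μ * μ') • v ∈ G) →
      g + 2 ≤ Module.finrank K L →
      ∀ v, M (M v) - (μ + μ') • M v + (μ * μ') • v ∈ G) : False := by
  classical
  have hGG : G ≤ G.comap M := fun v hv => hG v hv
  set Mb : (V ⧸ G) →ₗ[K] (V ⧸ G) := G.mapQ G M hGG with hMb
  have hMbmk : ∀ v : V, Mb (Submodule.Quotient.mk v) = Submodule.Quotient.mk (M v) := by
    intro v
    rw [hMb]
    exact Submodule.mapQ_apply G G M v
  have hQ : Module.finrank K (V ⧸ G) + Module.finrank K G = Module.finrank K V :=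
    Submodule.finrank_quotient_add_finrank G
  have hG1 : Module.finrank K G ≤ g + 1 := by
    apply h1 0 G
    intro v hv
    simpa using hG v hv
  -- the kernels
  have hker : ∀ μ : K, Module.finrank K G +
      Module.finrank K (LinearMap.ker (Mb - μ • LinearMap.id)) ≤ g + 1 := by
    intro μ
    rw [← LinAlg.finrank_comap_mkQ]
    apply h1 μ
    intro v hv
    simp only [Submodule.mem_comap, Submodule.mkQ_apply, LinearMap.mem_ker, LinearMap.sub_apply,
      LinearMap.smul_apply, LinearMap.id_apply, hMbmk] at hv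
    rw [← Submodule.Quotient.mk_smul, ← Submodule.Quotient.mk_sub,
      Submodule.Quotient.mk_eq_zero] at hv
    exact hv
  have hnt : Nontrivial (V ⧸ G) := by
    apply Module.nontrivial_of_finrank_pos (R := K)
    omega
  obtain ⟨μ, hμ⟩ := Module.End.exists_eigenvalue (Mb : Module.End K (V ⧸ G))
  obtain ⟨v1, hv1⟩ := hμ.exists_hasEigenvector
  have hv1e : Mb v1 = μ • v1 := hv1.apply_eq_smul
  have hv1n : v1 ≠ 0 := hv1.2
  have hkpos : 1 ≤ Module.finrank K (LinearMap.ker (Mb - μ • LinearMap.id)) := by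
    have hmem : v1 ∈ LinearMap.ker (Mb - μ • LinearMap.id) := by
      simp [LinearMap.mem_ker, hv1e]
    have : LinearMap.ker (Mb - μ • LinearMap.id) ≠ ⊥ := by
      intro h0
      rw [h0, Submodule.mem_bot] at hmem
      exact hv1n hmem
    exact Submodule.one_le_finrank_iff.mpr this
  have hGg : Module.finrank K G = g := by
    have := hker μ
    omega
  have hk1 : ∀ ν : K, Module.finrank K (LinearMap.ker (Mb - ν • LinearMap.id)) ≤ 1 := by
    intro ν
    have := hker ν
    omega
  have hQ3 : 3 ≤ Module.finrank K (V ⧸ G) := by omega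
  -- second eigenvalue
  set W1 : Submodule K (V ⧸ G) := LinearMap.ker (Mb - μ • LinearMap.id) with hW1
  have hW1inv : W1 ≤ W1.comap Mb := by
    intro v hv
    rw [hW1, LinearMap.mem_ker, LinearMap.sub_apply, LinearMap.smul_apply, LinearMap.id_apply,
      sub_eq_zero] at hv
    rw [Submodule.mem_comap, hv]
    apply W1.smul_mem
    rw [hW1, LinearMap.mem_ker, LinearMap.sub_apply, LinearMap.smul_apply, LinearMap.id_apply,
      sub_eq_zero]
    exact hv
  set Mc : ((V ⧸ G) ⧸ W1) →ₗ[K] ((V ⧸ G) ⧸ W1) := W1.mapQ W1 Mb hW1inv with hMc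
  have hMcmk : ∀ v : V ⧸ G, Mc (Submodule.Quotient.mk v) = Submodule.Quotient.mk (Mb v) := by
    intro v
    rw [hMc]
    exact Submodule.mapQ_apply W1 W1 Mb v
  have hQ1 : Module.finrank K ((V ⧸ G) ⧸ W1) + Module.finrank K W1 = Module.finrank K (V ⧸ G) :=
    Submodule.finrank_quotient_add_finrank W1
  have hnt1 : Nontrivial ((V ⧸ G) ⧸ W1) := by
    apply Module.nontrivial_of_finrank_pos (R := K)
    have : Module.finrank K W1 ≤ 1 := hk1 μ
    omega
  obtain ⟨μ', hμ'⟩ := Module.End.exists_eigenvalue (Mc : Module.End K ((V ⧸ G) ⧸ W1))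
  obtain ⟨v2', hv2'⟩ := hμ'.exists_hasEigenvector
  have hv2e' : Mc v2' = μ' • v2' := hv2'.apply_eq_smul
  have hv2n' : v2' ≠ 0 := hv2'.2
  obtain ⟨v2, rfl⟩ := Submodule.Quotient.mk_surjective W1 v2'
  have hv2n : v2 ∉ W1 := by
    intro h0
    exact hv2n' ((Submodule.Quotient.mk_eq_zero W1).mpr h0)
  have hv2e : Mb v2 - μ' • v2 ∈ W1 := by
    rw [hMcmk, ← Submodule.Quotient.mk_smul, ← sub_eq_zero, ← Submodule.Quotient.mk_sub,
      Submodule.Quotient.mk_eq_zero] at hv2e'
    exact hv2e'
  have hW1mem : ∀ w : V ⧸ G, w ∈ W1 ↔ Mb w - μ • w = 0 := by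
    intro w
    rw [hW1, LinearMap.mem_ker, LinearMap.sub_apply, LinearMap.smul_apply, LinearMap.id_apply]
  -- the product
  let T : (V ⧸ G) →ₗ[K] (V ⧸ G) := (Mb - μ • LinearMap.id) ∘ₗ (Mb - μ' • LinearMap.id)
  have hT : ∀ w, T w = Mb (Mb w) - (μ + μ') • Mb w + (μ * μ') • w := by
    intro w
    simp only [T, LinearMap.comp_apply, LinearMap.sub_apply, LinearMap.smul_apply,
      LinearMap.id_apply, map_sub, map_smul]
    module
  have hTv2 : v2 ∈ LinearMap.ker T := by
    rw [LinearMap.mem_ker]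
    have := (hW1mem _).mp hv2e
    simp only [T, LinearMap.comp_apply, LinearMap.sub_apply, LinearMap.smul_apply,
      LinearMap.id_apply]
    exact this
  have hTW1 : W1 ≤ LinearMap.ker T := by
    intro w hw
    rw [LinearMap.mem_ker]
    have h3 : Mb w - μ' • w ∈ W1 := W1.sub_mem (hW1inv hw) (W1.smul_mem _ hw)
    have := (hW1mem _).mp h3
    simp only [T, LinearMap.comp_apply, LinearMap.sub_apply, LinearMap.smul_apply,
      LinearMap.id_apply]
    exact this
  have hlt : W1 < LinearMap.ker T := by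
    refine lt_of_le_of_ne hTW1 ?_
    intro h0
    rw [h0] at hv2n
    exact hv2n hTv2
  have hfT : 2 ≤ Module.finrank K (LinearMap.ker T) := by
    have := Submodule.finrank_lt_finrank_of_lt hlt
    omega
  -- T = 0
  have hT0 : ∀ w, T w = 0 := by
    have h4 := h2 μ μ' ((LinearMap.ker T).comap G.mkQ) ?_ ?_
    · intro w
      obtain ⟨v, rfl⟩ := Submodule.Quotient.mk_surjective G w
      rw [hT, hMbmk, hMbmk, ← Submodule.Quotient.mk_smul, ← Submodule.Quotient.mk_smul,
        ← Submodule.Quotient.mk_sub, ← Submodule.Quotient.mk_add, Submodule.Quotient.mk_eq_zero]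
      exact h4 v
    · intro v hv
      rw [Submodule.mem_comap, Submodule.mkQ_apply, LinearMap.mem_ker, hT, hMbmk, hMbmk,
        ← Submodule.Quotient.mk_smul, ← Submodule.Quotient.mk_smul,
        ← Submodule.Quotient.mk_sub, ← Submodule.Quotient.mk_add,
        Submodule.Quotient.mk_eq_zero] at hv
      exact hv
    · rw [LinAlg.finrank_comap_mkQ]
      omega
  -- range of Mb - μ' is in W1
  have hrange : LinearMap.range (Mb - μ' • LinearMap.id) ≤ W1 := by
    rintro _ ⟨w, rfl⟩
    rw [hW1, LinearMap.mem_ker]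
    exact hT0 w
  have hr1 := Submodule.finrank_mono hrange
  have hrk := LinearMap.finrank_range_add_finrank_ker (Mb - μ' • LinearMap.id)
  have h5 := hk1 μ'
  have h6 : Module.finrank K W1 ≤ 1 := hk1 μ
  omega

end Pool.Agent.H1.HW
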